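import Mathlib.Combinatorics.Enumerative.Partition.Basic
import Mathlib.Tactic

/-!
# MP_058057: truncated triangular-number inequalities for `Q₀(n)`

The strictness claim fails at `k = 1`, `n = 7`.
-/

namespace Pool.Agent.Results.MP_058057_co.Disproof

/-- The number of partitions of `n` into distinct parts, no part being divisible by `4`. -/
def Q0nat (n : ℕ) : ℕ :=
  ((Finset.univ : Finset n.Partition).filter
    fun p => p.parts.Nodup ∧ ∀ i ∈ p.parts, ¬ 4 ∣ i).card

/-- `Q₀` on the integers, zero for negative arguments. -/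
def Q0 (m : ℤ) : ℤ := if m < 0 then 0 else (Q0nat m.toNat : ℤ)

/-- `ξ_n`: `1` for `n = 0`, `2 (-1)^m` for `n = 4 m²` with `m ≥ 1`, and `0` otherwise. -/
def xi (n : ℕ) : ℤ :=
  if n = 0 then 1
  else if n = 4 * (Nat.sqrt (n / 4)) ^ 2 then 2 * (-1) ^ Nat.sqrt (n / 4) else 0

/-- The sum `S_k(n)` of the first `2k` terms of the signed sum over triangular numbers. -/
def S (k n : ℕ) : ℤ :=
  ∑ j ∈ Finset.range (2 * k), (-1) ^ (j * (j + 1) / 2) * Q0 ((n : ℤ) - ((j * (j + 1) / 2 : ℕ) : ℤ))

open scoped Classical in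
/-- `xi` agrees with its description. -/
theorem xi_spec (n : ℕ) :
    xi n = if n = 0 then 1 else
      if ∃ m, 1 ≤ m ∧ n = 4 * m ^ 2 then 2 * (-1) ^ Nat.sqrt (n / 4) else 0 := by
  unfold xi
  by_cases h0 : n = 0
  · simp [h0]
  · simp only [h0, if_false]
    by_cases h : ∃ m, 1 ≤ m ∧ n = 4 * m ^ 2
    · obtain ⟨m, hm, rfl⟩ := h
      have h1 : 4 * m ^ 2 / 4 = m ^ 2 := by omega
      have h2 : Nat.sqrt (m ^ 2) = m := Nat.sqrt_eq' m
      rw [h1, h2, if_pos rfl, if_pos ⟨m, hm, rfl⟩]
    · rw [if_neg h, if_neg]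
      intro h'
      apply h
      refine ⟨Nat.sqrt (n / 4), ?_, h'⟩
      by_contra hlt
      have : Nat.sqrt (n / 4) = 0 := by omega
      rw [this] at h'
      simp at h'
      exact h0 h'

/-- A partition into distinct parts is the same as a finite set of positive integers. -/
theorem Q0nat_eq (n : ℕ) : Q0nat n =
    (((Finset.Icc 1 n).powerset).filter fun A => A.sum id = n ∧ ∀ i ∈ A, ¬ 4 ∣ i).card := by
  unfold Q0nat
  refine Finset.card_bij (fun p _ => p.parts.toFinset) ?_ ?_ ?_
  · intro p hp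
    simp only [Finset.mem_filter, Finset.mem_univ, true_and] at hp
    simp only [Finset.mem_filter, Finset.mem_powerset]
    refine ⟨fun i hi => ?_, ?_, fun i hi => hp.2 i (Multiset.mem_toFinset.mp hi)⟩
    · rw [Multiset.mem_toFinset] at hi
      rw [Finset.mem_Icc]
      refine ⟨p.parts_pos hi, ?_⟩
      have := Multiset.single_le_sum (fun _ _ => Nat.zero_le _) i hi
      rw [p.parts_sum] at this
      exact this
    · have h1 : p.parts.toFinset.val = p.parts := by
        rw [Multiset.toFinset_val, hp.1.dedup]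
      rw [Finset.sum, h1, Multiset.map_id, p.parts_sum]
  · intro p hp q hq h
    simp only [Finset.mem_filter, Finset.mem_univ, true_and] at hp hq
    have h1 : p.parts.toFinset.val = p.parts := by
      rw [Multiset.toFinset_val, hp.1.dedup]
    have h2 : q.parts.toFinset.val = q.parts := by
      rw [Multiset.toFinset_val, hq.1.dedup]
    apply Nat.Partition.ext
    rw [← h1, ← h2]
    exact congrArg Finset.val h
  · intro A hA
    simp only [Finset.mem_filter, Finset.mem_powerset] at hA
    refine ⟨⟨A.val, ?_, ?_⟩, ?_, ?_⟩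
    · intro i hi
      have := Finset.mem_Icc.mp (hA.1 (Finset.mem_def.mpr hi))
      omega
    · have := hA.2.1
      rw [Finset.sum, Multiset.map_id] at this
      exact this
    · simp only [Finset.mem_filter, Finset.mem_univ, true_and]
      exact ⟨A.nodup, fun i hi => hA.2.2 i (Finset.mem_def.mpr hi)⟩
    · simp

theorem Q0nat_seven : Q0nat 7 = 3 := by
  rw [Q0nat_eq]
  decide +kernel

theorem Q0nat_six : Q0nat 6 = 3 := by
  rw [Q0nat_eq]
  decide +kernel

/-- The negated form of Q1 holds: for `k = 1`, `n = 7 ≥ k (2k+1) = 3` the quantity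
`(-1)^(k-1) (S_k(n) - ξ_n)` equals `0`, so the inequality is not strict there. -/
theorem result :
    ¬ ∀ n k : ℕ, 1 ≤ k →
      (0 ≤ (-1 : ℤ) ^ (k - 1) * (S k n - xi n) ∧
        (0 < (-1 : ℤ) ^ (k - 1) * (S k n - xi n) ↔ k * (2 * k + 1) ≤ n)) := by
  intro h
  have h1 := ((h 7 1 le_rfl).2).mpr (by norm_num)
  have hS : S 1 7 = 0 := by
    unfold S
    simp [Finset.sum_range_succ, Q0, Q0nat_seven, Q0nat_six]
  have hx : xi 7 = 0 := by
    unfold xi
    norm_num
  rw [hS, hx] at h1
  simp at h1

end Pool.Agent.Results.MP_058057_co.Disproof
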